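import Pool.Agent.TH368.GT.Emb

/-!
# Counting the vertices without grandchildren
-/

set_option autoImplicit false

namespace Pool.Agent.TH368.GT

open Finset Pool.Agent.H115R2

variable {V : Type} [Fintype V] {T : SimpleGraph V}

lemma ncard_two_le {s : Set V} {x y : V} (hx : x ∈ s) (hy : y ∈ s) (h : x ≠ y) : 2 ≤ s.ncard := by
  have h1 : ({x, y} : Set V).ncard = 2 := Set.ncard_pair h
  rw [← h1]
  apply Set.ncard_le_ncard _ (Set.toFinite _)
  intro z hz
  rcases hz with h2 | h2
  · rw [h2]; exact hx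
  · rw [Set.mem_singleton_iff] at h2
    rw [h2]; exact hy

lemma exists_of_two_le {s : Set V} (h : 2 ≤ s.ncard) (x : V) : ∃ y ∈ s, y ≠ x := by
  by_contra hno
  push Not at hno
  have h1 : s ⊆ {x} := fun y hy => Set.mem_singleton_iff.2 (hno y hy)
  have h2 := Set.ncard_le_ncard h1 (Set.toFinite _)
  rw [Set.ncard_singleton] at h2
  omega

/-- if all neighbours of `y` are leaves then only `y` is at even distance -/
lemma noGrand_le_one (hT : T.IsTree) (y : V)
    (h : ∀ z, T.Adj y z → ¬ 2 ≤ (T.neighborSet z).ncard) : (noGrand T y).ncard ≤ 1 := by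
  obtain ⟨par, hr⟩ := exists_root T hT y
  have hpar0 : ∀ v, T.dist y v = 0 → v = y := by
    intro v hv
    by_contra hne
    have := hr.dist v hne
    omega
  have h2 : ∀ n v, T.dist y v = n → 2 ≤ n → False := by
    intro n
    induction n using Nat.strong_induction_on with
    | _ n ih =>
      intro v hv hn
      have hvy : v ≠ y := by
        rintro rfl
        rw [SimpleGraph.dist_self] at hv
        omega
      have h3 := hr.dist v hvy
      rcases Nat.lt_or_ge 2 n with h4 | h4
      · exact ih (n - 1) (by omega) (par v) (by omega) (by omega)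
      · have h5 : T.dist y (par v) = 1 := by omega
        have h6 : par v ≠ y := by
          intro h7
          rw [h7, SimpleGraph.dist_self] at h5
          omega
        have h7 := hr.dist (par v) h6
        have h8 : par (par v) = y := hpar0 _ (by omega)
        have h9 := hr.adj (par v) h6
        rw [h8] at h9
        apply h (par v) h9
        exact ncard_two_le (x := y) (y := v) ((SimpleGraph.mem_neighborSet _ _ _).2 h9.symm)
          ((SimpleGraph.mem_neighborSet _ _ _).2 (hr.adj v hvy)) (Ne.symm hvy)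
  have h3 : noGrand T y ⊆ {y} := by
    intro v hv
    rw [Set.mem_singleton_iff]
    by_contra hne
    obtain ⟨k, hk⟩ := hv.1
    have h4 : T.dist y v ≠ 0 := fun h5 => hne (hpar0 v h5)
    exact h2 _ v rfl (by omega)
  have h4 := Set.ncard_le_ncard h3 (Set.toFinite _)
  rw [Set.ncard_singleton] at h4
  exact h4

/-- a vertex without grandchildren is a leaf or has at most one neighbour which is no leaf -/
lemma noGrand_sub (hT : T.IsTree) (r v : V) (hv : v ∈ noGrand T r) (hvr : v ≠ r) :
    v ∈ {x : V | (T.neighborSet x).ncard = 1} ∪ {x : V | 2 ≤ (T.neighborSet x).ncard ∧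
      {y : V | T.Adj x y ∧ 2 ≤ (T.neighborSet y).ncard}.ncard ≤ 1} := by
  obtain ⟨par, hr⟩ := exists_root T hT r
  have h1 : 1 ≤ (T.neighborSet v).ncard := by
    have h2 : (T.neighborSet v).Nonempty :=
      ⟨par v, (SimpleGraph.mem_neighborSet _ _ _).2 (hr.adj v hvr).symm⟩
    exact (Set.ncard_pos (Set.toFinite _)).2 h2
  by_cases h2 : (T.neighborSet v).ncard = 1
  · exact Or.inl h2
  right
  refine ⟨by omega, ?_⟩
  have h3 : {y : V | T.Adj v y ∧ 2 ≤ (T.neighborSet y).ncard} ⊆ {par v} := by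
    rintro y ⟨hy1, hy2⟩
    rw [Set.mem_singleton_iff]
    by_contra hne
    rcases hr.cov v y hy1 with ⟨h4, h5⟩ | ⟨h4, h5⟩
    · exact hne h5.symm
    · obtain ⟨z, hz1, hz2⟩ := exists_of_two_le hy2 v
      rw [SimpleGraph.mem_neighborSet] at hz1
      have h6 := hr.dist y h4
      rw [h5] at h6
      rcases hr.cov y z hz1 with ⟨h7, h8⟩ | ⟨h7, h8⟩
      · exact hz2 (h8.symm.trans h5)
      · have h9 := hr.dist z h7
        rw [h8] at h9
        exact hv.2 y z hy1 hz1 (by omega)
  have h4 := Set.ncard_le_ncard h3 (Set.toFinite _)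
  rw [Set.ncard_singleton] at h4
  exact h4

/-- **some vertex has few vertices at even distance without grandchildren** -/
theorem exists_good (hT : T.IsTree) : ∃ r : V, 2 * ((noGrand T r).ncard - 1) ≤
    {x : V | (T.neighborSet x).ncard = 1}.ncard + {x : V | 2 ≤ (T.neighborSet x).ncard ∧
      {y : V | T.Adj x y ∧ 2 ≤ (T.neighborSet y).ncard}.ncard ≤ 1}.ncard - 4 := by
  classical
  obtain ⟨r0⟩ := hT.1.nonempty
  by_cases hex : ∃ y, 2 ≤ (T.neighborSet y).ncard
  swap
  · push Not at hex
    refine ⟨r0, ?_⟩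
    have := noGrand_le_one hT r0 (fun z _ => by have := hex z; omega)
    omega
  obtain ⟨y, hy, hmax⟩ := Finset.exists_max_image
    (univ.filter (fun v => 2 ≤ (T.neighborSet v).ncard)) (fun v => T.dist r0 v)
    (by
      obtain ⟨v, hv⟩ := hex
      exact ⟨v, by rw [mem_filter]; exact ⟨mem_univ _, hv⟩⟩)
  rw [mem_filter] at hy
  have hy2 := hy.2
  obtain ⟨par, hr⟩ := exists_root T hT r0
  have hyD : {z : V | T.Adj y z ∧ 2 ≤ (T.neighborSet z).ncard}.ncard ≤ 1 := by
    have h3 : {z : V | T.Adj y z ∧ 2 ≤ (T.neighborSet z).ncard} ⊆ {par y} := by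
      rintro z ⟨hz1, hz2⟩
      rw [Set.mem_singleton_iff]
      by_contra hne
      rcases hr.cov y z hz1 with ⟨h4, h5⟩ | ⟨h4, h5⟩
      · exact hne h5.symm
      · have h6 := hr.dist z h4
        rw [h5] at h6
        have h7 := hmax z (by rw [mem_filter]; exact ⟨mem_univ _, hz2⟩)
        omega
    have h4 := Set.ncard_le_ncard h3 (Set.toFinite _)
    rw [Set.ncard_singleton] at h4
    exact h4
  by_cases hz : ∃ z, T.Adj y z ∧ 2 ≤ (T.neighborSet z).ncard
  swap
  · push Not at hz
    refine ⟨y, ?_⟩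
    have := noGrand_le_one hT y (fun z hz' => by have := hz z hz'; omega)
    omega
  obtain ⟨z, hz1, hz2⟩ := hz
  obtain ⟨s, hs1, hs2⟩ := exists_of_two_le hy2 z
  rw [SimpleGraph.mem_neighborSet] at hs1
  have hs3 : (T.neighborSet s).ncard = 1 := by
    have h1 : 1 ≤ (T.neighborSet s).ncard := by
      have h2 : (T.neighborSet s).Nonempty :=
        ⟨y, (SimpleGraph.mem_neighborSet _ _ _).2 hs1.symm⟩
      exact (Set.ncard_pos (Set.toFinite _)).2 h2
    by_contra h2
    have h3 : 2 ≤ {z : V | T.Adj y z ∧ 2 ≤ (T.neighborSet z).ncard}.ncard :=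
      ncard_two_le (x := s) (y := z) ⟨hs1, by omega⟩ ⟨hz1, hz2⟩ hs2
    omega
  obtain ⟨z2, hz3, hz4⟩ := exists_of_two_le hz2 y
  rw [SimpleGraph.mem_neighborSet] at hz3
  have hsy : s ≠ y := hs1.ne.symm
  -- distances
  have hd1 : T.dist y s = 1 := SimpleGraph.dist_eq_one_iff_adj.2 hs1
  have hd2 : T.dist s y = 1 := SimpleGraph.dist_eq_one_iff_adj.2 hs1.symm
  have hd3 : T.dist y z = 1 := SimpleGraph.dist_eq_one_iff_adj.2 hz1
  have hd4 : ∀ u v w, T.Adj u v → T.Adj v w → w ≠ u → T.dist u w = 2 := by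
    intro u v w huv hvw hwu
    have h1 : T.dist u v = 1 := SimpleGraph.dist_eq_one_iff_adj.2 huv
    rcases hT.dist_eq_dist_add_one_of_adj u hvw with h2 | h2
    · have h3 : T.dist u w = 0 := by omega
      have h4 := (hT.1.dist_eq_zero_iff).1 h3
      exact absurd h4.symm hwu
    · omega
  have hyy : y ∉ noGrand T y := by
    intro h
    refine h.2 z z2 hz1 hz3 ?_
    rw [SimpleGraph.dist_self, hd4 y z z2 hz1 hz3 hz4]
  have hss : s ∉ noGrand T s := by
    intro h
    refine h.2 y z hs1.symm hz1 ?_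
    rw [SimpleGraph.dist_self, hd4 s y z hs1.symm hz1 (Ne.symm hs2)]
  have hys : y ∉ noGrand T s := by
    intro h
    obtain ⟨k, hk⟩ := h.1
    omega
  have hsy' : s ∉ noGrand T y := by
    intro h
    obtain ⟨k, hk⟩ := h.1
    omega
  set A : Set V := {x : V | (T.neighborSet x).ncard = 1} with hA
  set D : Set V := {x : V | 2 ≤ (T.neighborSet x).ncard ∧
      {y : V | T.Adj x y ∧ 2 ≤ (T.neighborSet y).ncard}.ncard ≤ 1} with hD
  have hdisj : Disjoint (noGrand T s) (noGrand T y) := by
    rw [Set.disjoint_left]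
    intro v hv hv'
    obtain ⟨k, hk⟩ := hv.1
    obtain ⟨l, hl⟩ := hv'.1
    have h1 := hT.dist_eq_dist_add_one_of_adj v hs1
    rw [SimpleGraph.dist_comm (u := v) (v := y), SimpleGraph.dist_comm (u := v) (v := s)] at h1
    omega
  have hsub : noGrand T s ∪ noGrand T y ⊆ (A ∪ D) \ {s, y} := by
    rintro v (hv | hv)
    · have h1 : v ≠ s := by rintro rfl; exact hss hv
      have h2 : v ≠ y := by rintro rfl; exact hys hv
      refine ⟨noGrand_sub hT s v hv h1, ?_⟩
      rintro (h3 | h3)
      · exact h1 h3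
      · exact h2 h3
    · have h1 : v ≠ s := by rintro rfl; exact hsy' hv
      have h2 : v ≠ y := by rintro rfl; exact hyy hv
      refine ⟨noGrand_sub hT y v hv h2, ?_⟩
      rintro (h3 | h3)
      · exact h1 h3
      · exact h2 h3
  have h1 := Set.ncard_le_ncard hsub (Set.toFinite _)
  rw [Set.ncard_union_eq hdisj (Set.toFinite _) (Set.toFinite _)] at h1
  have h2 : ({s, y} : Set V) ⊆ A ∪ D := by
    rintro v (hv | hv)
    · rw [hv]; exact Or.inl hs3
    · rw [Set.mem_singleton_iff] at hv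
      rw [hv]; exact Or.inr ⟨hy2, hyD⟩
  have h3 := Set.ncard_sdiff h2 (Set.toFinite _)
  rw [Set.ncard_pair hsy] at h3
  have h4 := Set.ncard_union_le A D
  rw [h3] at h1
  rcases Nat.lt_or_ge (noGrand T y).ncard (noGrand T s).ncard with h5 | h5
  · exact ⟨y, by omega⟩
  · exact ⟨s, by omega⟩

/-- there are at most as many non-leaves with at most one non-leaf neighbour as leaves -/
theorem card_le_leaves (T : SimpleGraph V) : {x : V | 2 ≤ (T.neighborSet x).ncard ∧
      {y : V | T.Adj x y ∧ 2 ≤ (T.neighborSet y).ncard}.ncard ≤ 1}.ncard ≤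
    {x : V | (T.neighborSet x).ncard = 1}.ncard := by
  classical
  have key : ∀ x, ∃ z, x ∈ {x : V | 2 ≤ (T.neighborSet x).ncard ∧
      {y : V | T.Adj x y ∧ 2 ≤ (T.neighborSet y).ncard}.ncard ≤ 1} →
      T.Adj x z ∧ (T.neighborSet z).ncard = 1 := by
    intro x
    by_cases hx : x ∈ {x : V | 2 ≤ (T.neighborSet x).ncard ∧
      {y : V | T.Adj x y ∧ 2 ≤ (T.neighborSet y).ncard}.ncard ≤ 1}
    swap
    · exact ⟨x, fun h => absurd h hx⟩
    obtain ⟨hx1, hx2⟩ := hx
    by_contra hno
    push Not at hno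
    have h1 : ∀ z, T.Adj x z → 2 ≤ (T.neighborSet z).ncard := by
      intro z hz
      have h2 := (hno z).2 hz
      have h3 : (T.neighborSet z).Nonempty := ⟨x, (SimpleGraph.mem_neighborSet _ _ _).2 hz.symm⟩
      have h4 := (Set.ncard_pos (Set.toFinite _)).2 h3
      omega
    have h2 : T.neighborSet x ⊆ {y : V | T.Adj x y ∧ 2 ≤ (T.neighborSet y).ncard} := by
      intro z hz
      rw [SimpleGraph.mem_neighborSet] at hz
      exact ⟨hz, h1 z hz⟩
    have h3 := Set.ncard_le_ncard h2 (Set.toFinite _)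
    omega
  choose F hF using key
  refine Set.ncard_le_ncard_of_injOn F (fun x hx => (hF x hx).2) ?_ (Set.toFinite _)
  intro x hx x' hx' h
  have h1 := hF x hx
  have h2 := hF x' hx'
  rw [← h] at h2
  by_contra hne
  have h3 := ncard_two_le (s := T.neighborSet (F x)) (x := x) (y := x')
    ((SimpleGraph.mem_neighborSet _ _ _).2 h1.1.symm)
    ((SimpleGraph.mem_neighborSet _ _ _).2 h2.1.symm) hne
  omega

end Pool.Agent.TH368.GT
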