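import Pool.Agent.TH368.GT.Num
import Pool.Agent.TH49.GT.Match

/-!
# Completion of the labelling to a graceful tree

The lower vertex `i` gets the label `M - x i`, the upper vertex `j` the label `j`. The unused labels
`u` are matched with the missing differences `d ≤ u`, and `u` is joined to `u - d`.
The proof follows `Pool.Agent.TH49.GT.complete`.
-/

set_option autoImplicit false

namespace Pool.Agent.TH368.GT

open Finset

variable {a b : ℕ} {c π : ℕ → ℕ} {Sp : Finset ℕ}

theorem complete (hD : Dat a b c π Sp) (x : ℕ → ℕ) (hx : ∀ i i', i < i' → i' < a → x i < x i')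
    (hcs : ∀ i i', i < i' → i' < a → x i + c i < x i' + c i')
    (h1 : ∀ i j, i < a → 1 ≤ j → j < b → x i + c i ≠ x (π j) + j)
    (h2 : ∀ j j', 1 ≤ j → j < j' → j' < b → x (π j) + j ≠ x (π j') + j')
    (M : ℕ) (hM : ∀ i, i < a → x i + b ≤ M) (hMm : a + b ≤ M + 1) :
    ∃ G : SimpleGraph (Fin (M + 1)), G.IsTree ∧ G.edgeSet.ncard = M ∧
      {d : ℕ | ∃ u v : Fin (M + 1), G.Adj u v ∧
        d = Int.natAbs (((u : ℕ) : ℤ) - ((v : ℕ) : ℤ))} = Set.Icc 1 M ∧
      (∀ i, i < a → ∀ u v : Fin (M + 1), (u : ℕ) = M - x i → (v : ℕ) = c i → G.Adj u v) ∧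
      (∀ j, 1 ≤ j → j < b → ∀ u v : Fin (M + 1), (u : ℕ) = M - x (π j) → (v : ℕ) = j →
        G.Adj u v) := by
  classical
  have hb := hD.hb
  have hxinj : ∀ i i', i < a → i' < a → x i = x i' → i = i' := by
    intro i i' hi hi' h
    rcases lt_trichotomy i i' with h3 | h3 | h3
    · have := hx i i' h3 hi'
      omega
    · exact h3
    · have := hx i' i h3 hi
      omega
  -- sums are less than `M`
  have hcM : ∀ i, i < a → x i + c i + 1 ≤ M := by
    intro i hi
    have h3 := hM i hi
    have h4 := hD.clt i hi
    omega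
  have hjM : ∀ j, 1 ≤ j → j < b → x (π j) + j + 1 ≤ M := by
    intro j hj1 hjb
    have h3 := hM (π j) (hD.plt j hj1 hjb).1
    omega
  set L1 : Finset ℕ := (range a).image (fun i => M - x i) with hL1
  set L : Finset ℕ := L1 ∪ range b with hL
  set D1 : Finset ℕ := (range a).image (fun i => M - (x i + c i)) with hD1
  set D2 : Finset ℕ := (Ico 1 b).image (fun j => M - (x (π j) + j)) with hD2
  set D : Finset ℕ := D1 ∪ D2 with hDd
  have hinj1 : ∀ i i', i < a → i' < a → M - x i = M - x i' → i = i' := by
    intro i i' hi hi' h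
    have h3 := hM i hi
    have h4 := hM i' hi'
    exact hxinj i i' hi hi' (by omega)
  have hinj2 : ∀ i i', i < a → i' < a → M - (x i + c i) = M - (x i' + c i') → i = i' := by
    intro i i' hi hi' h
    have h3 := hcM i hi
    have h4 := hcM i' hi'
    rcases lt_trichotomy i i' with h5 | h5 | h5
    · have := hcs i i' h5 hi'
      omega
    · exact h5
    · have := hcs i' i h5 hi
      omega
  have hinj3 : ∀ j j', 1 ≤ j → j < b → 1 ≤ j' → j' < b →
      M - (x (π j) + j) = M - (x (π j') + j') → j = j' := by
    intro j j' hj hjb hj' hjb' h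
    have h3 := hjM j hj hjb
    have h4 := hjM j' hj' hjb'
    rcases lt_trichotomy j j' with h5 | h5 | h5
    · have := h2 j j' hj h5 hjb'
      omega
    · exact h5
    · have := h2 j' j hj' h5 hjb
      omega
  have hL1c : L1.card = a := by
    rw [hL1, card_image_of_injOn, card_range]
    intro i hi i' hi' h
    rw [mem_coe, mem_range] at hi hi'
    exact hinj1 i i' hi hi' h
  have hLdis : Disjoint L1 (range b) := by
    rw [disjoint_left]
    intro n hn hn'
    rw [hL1, mem_image] at hn
    obtain ⟨i, hi, rfl⟩ := hn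
    rw [mem_range] at hi hn'
    have := hM i hi
    omega
  have hLc : L.card = a + b := by
    rw [hL, card_union_of_disjoint hLdis, hL1c, card_range]
  have hD1c : D1.card = a := by
    rw [hD1, card_image_of_injOn, card_range]
    intro i hi i' hi' h
    rw [mem_coe, mem_range] at hi hi'
    exact hinj2 i i' hi hi' h
  have hD2c : D2.card = b - 1 := by
    rw [hD2, card_image_of_injOn, Nat.card_Ico]
    intro i hi i' hi' h
    rw [mem_coe, mem_Ico] at hi hi'
    exact hinj3 i i' hi.1 hi.2 hi'.1 hi'.2 h
  have hDdis : Disjoint D1 D2 := by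
    rw [disjoint_left]
    intro n hn hn'
    rw [hD1, mem_image] at hn
    rw [hD2, mem_image] at hn'
    obtain ⟨i, hi, h3⟩ := hn
    obtain ⟨j, hj, h4⟩ := hn'
    rw [mem_range] at hi
    rw [mem_Ico] at hj
    have h5 := hcM i hi
    have h6 := hjM j hj.1 hj.2
    have h7 := h1 i j hi hj.1 hj.2
    omega
  have hDc : D.card = a + (b - 1) := by
    rw [hDd, card_union_of_disjoint hDdis, hD1c, hD2c]
  have hLM : L ⊆ range (M + 1) := by
    intro n hn
    rw [hL, mem_union, hL1, mem_image, mem_range] at hn
    rw [mem_range]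
    rcases hn with ⟨i, hi, rfl⟩ | hn
    · omega
    · omega
  have hDM : D ⊆ Icc 1 M := by
    intro n hn
    rw [hDd, mem_union, hD1, hD2, mem_image, mem_image] at hn
    rw [mem_Icc]
    rcases hn with ⟨i, hi, rfl⟩ | ⟨j, hj, rfl⟩
    · rw [mem_range] at hi
      have := hcM i hi
      omega
    · rw [mem_Ico] at hj
      have := hjM j hj.1 hj.2
      omega
  set U : Finset ℕ := range (M + 1) \ L with hU
  set C : Finset ℕ := Icc 1 M \ D with hC
  have hUc : U.card = M + 1 - (a + b) := by
    rw [hU, card_sdiff_of_subset hLM, card_range, hLc]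
  have hCc : C.card = M + 1 - (a + b) := by
    rw [hC, card_sdiff_of_subset hDM, Nat.card_Icc, hDc]
    omega
  -- domination
  have hdom : ∀ t, (L.filter (t < ·)).card ≤ (D.filter (t < ·)).card := by
    intro t
    by_cases htb : t + 1 ≤ b
    · have h3 := card_filter_add_card_filter_not (s := L) (fun n => t < n)
      have h4 := card_filter_add_card_filter_not (s := D) (fun n => t < n)
      have h5 : t + 1 ≤ (L.filter (fun n => ¬ t < n)).card := by
        have : range (t + 1) ⊆ L.filter (fun n => ¬ t < n) := by
          intro n hn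
          rw [mem_range] at hn
          rw [mem_filter, hL, mem_union, mem_range]
          exact ⟨Or.inr (by omega), by omega⟩
        have := card_le_card this
        rwa [card_range] at this
      have h6 : (D.filter (fun n => ¬ t < n)).card ≤ t := by
        have : D.filter (fun n => ¬ t < n) ⊆ Icc 1 t := by
          intro n hn
          rw [mem_filter] at hn
          have h7 := hDM hn.1
          rw [mem_Icc] at h7 ⊢
          omega
        have := card_le_card this
        rwa [Nat.card_Icc, Nat.add_sub_cancel] at this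
      omega
    · by_cases htM : M ≤ t
      · have h3 : L.filter (t < ·) = ∅ := by
          rw [filter_eq_empty_iff]
          intro n hn
          have := hLM hn
          rw [mem_range] at this
          omega
        rw [h3, card_empty]
        exact Nat.zero_le _
      obtain ⟨s, hs⟩ : ∃ s, s + t = M := ⟨M - t, by omega⟩
      have h3 : (L.filter (t < ·)).card ≤ ((range a).filter (fun i => x i < s)).card := by
        have : L.filter (t < ·) ⊆ ((range a).filter (fun i => x i < s)).image
            (fun i => M - x i) := by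
          intro n hn
          rw [mem_filter, hL, mem_union, hL1, mem_image, mem_range] at hn
          rw [mem_image]
          rcases hn with ⟨⟨i, hi, rfl⟩ | hn, hn'⟩
          · rw [mem_range] at hi
            have := hM i hi
            exact ⟨i, by rw [mem_filter, mem_range]; exact ⟨hi, by omega⟩, rfl⟩
          · omega
        exact (card_le_card this).trans card_image_le
      have h4 := dom hD x hx s
      have h5 : ((range a).filter (fun i => x i + c i < s)).card +
          ((Ico 1 b).filter (fun j => x (π j) + j < s)).card ≤ (D.filter (t < ·)).card := by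
        have e1 : ((range a).filter (fun i => x i + c i < s)).card =
            (((range a).filter (fun i => x i + c i < s)).image
              (fun i => M - (x i + c i))).card := by
          rw [card_image_of_injOn]
          intro i hi i' hi' h
          rw [mem_coe, mem_filter, mem_range] at hi hi'
          exact hinj2 i i' hi.1 hi'.1 h
        have e2 : ((Ico 1 b).filter (fun j => x (π j) + j < s)).card =
            (((Ico 1 b).filter (fun j => x (π j) + j < s)).image
              (fun j => M - (x (π j) + j))).card := by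
          rw [card_image_of_injOn]
          intro i hi i' hi' h
          rw [mem_coe, mem_filter, mem_Ico] at hi hi'
          exact hinj3 i i' hi.1.1 hi.1.2 hi'.1.1 hi'.1.2 h
        rw [e1, e2, ← card_union_of_disjoint]
        · apply card_le_card
          intro n hn
          rw [mem_union, mem_image, mem_image] at hn
          rw [mem_filter, hDd, mem_union, hD1, hD2, mem_image, mem_image]
          rcases hn with ⟨i, hi, rfl⟩ | ⟨j, hj, rfl⟩
          · rw [mem_filter] at hi
            exact ⟨Or.inl ⟨i, hi.1, rfl⟩, by omega⟩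
          · rw [mem_filter] at hj
            exact ⟨Or.inr ⟨j, hj.1, rfl⟩, by omega⟩
        · exact disjoint_of_subset_left (image_subset_image (filter_subset _ _))
            (disjoint_of_subset_right (image_subset_image (filter_subset _ _)) hDdis)
      omega
  have hdomc : ∀ t, (C.filter (t < ·)).card ≤ (U.filter (t < ·)).card := by
    intro t
    have h3 : (C.filter (t < ·)).card + (D.filter (t < ·)).card =
        ((Icc 1 M).filter (t < ·)).card := by
      have h5 : C.filter (t < ·) = (Icc 1 M).filter (t < ·) \ D.filter (t < ·) := by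
        ext n
        simp only [hC, mem_filter, mem_sdiff]
        tauto
      rw [h5, card_sdiff_add_card_eq_card]
      exact filter_subset_filter _ hDM
    have h4 : (U.filter (t < ·)).card + (L.filter (t < ·)).card =
        ((range (M + 1)).filter (t < ·)).card := by
      have h5 : U.filter (t < ·) = (range (M + 1)).filter (t < ·) \ L.filter (t < ·) := by
        ext n
        simp only [hU, mem_filter, mem_sdiff]
        tauto
      rw [h5, card_sdiff_add_card_eq_card]
      exact filter_subset_filter _ hLM
    have h5 : (Icc 1 M).filter (t < ·) = (range (M + 1)).filter (t < ·) := by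
      ext n
      simp only [mem_filter, mem_Icc, mem_range]
      omega
    have h6 := hdom t
    rw [h5] at h3
    omega
  obtain ⟨φ, p1, p2, p3⟩ := Pool.Agent.TH49.GT.match_le (M + 1 - (a + b)) C U hCc hUc hdomc
  have hφ : ∀ u ∈ U, 1 ≤ φ u ∧ φ u ≤ u := by
    intro u hu
    have h3 := p1 u hu
    rw [hC, mem_sdiff, mem_Icc] at h3
    exact ⟨h3.1.1.1, h3.2⟩
  set R : Fin (M + 1) → Fin (M + 1) → Prop := fun u v =>
    (∃ i, i < a ∧ (u : ℕ) = M - x i ∧ (v : ℕ) = c i) ∨
      (∃ j, 1 ≤ j ∧ j < b ∧ (u : ℕ) = M - x (π j) ∧ (v : ℕ) = j) ∨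
      ((u : ℕ) ∈ U ∧ (v : ℕ) + φ u = u) with hR
  have hRne : ∀ u v, R u v → (v : ℕ) < u := by
    rintro u v (⟨i, h3, h4, h5⟩ | ⟨j, h3, h4, h5, h6⟩ | ⟨h3, h4⟩)
    · have := hcM i h3
      omega
    · have := hjM j h3 h4
      omega
    · have := (hφ _ h3).1
      omega
  set G : SimpleGraph (Fin (M + 1)) := SimpleGraph.fromRel R with hG
  have hadj : ∀ u v, G.Adj u v ↔ R u v ∨ R v u := by
    intro u v
    rw [hG, SimpleGraph.fromRel_adj]
    constructor
    · exact fun h => h.2
    · intro h
      refine ⟨?_, h⟩
      rintro rfl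
      rcases h with h | h
      · have := hRne u u h
        omega
      · have := hRne u u h
        omega
  have hA1 : ∀ i, i < a → ∀ u v : Fin (M + 1), (u : ℕ) = M - x i → (v : ℕ) = c i → G.Adj u v :=
    fun i hi u v hu hv => (hadj _ _).2 (Or.inl (Or.inl ⟨i, hi, hu, hv⟩))
  have hA2 : ∀ j, 1 ≤ j → j < b → ∀ u v : Fin (M + 1), (u : ℕ) = M - x (π j) → (v : ℕ) = j →
      G.Adj u v :=
    fun j hj1 hjb u v hu hv => (hadj _ _).2 (Or.inl (Or.inr (Or.inl ⟨j, hj1, hjb, hu, hv⟩)))
  have hbM : b ≤ M + 1 := by omega
  -- connectedness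
  have hreach1 : ∀ j (hj : j < b), G.Reachable ⟨j, by omega⟩ ⟨0, by omega⟩ := by
    intro j
    induction j using Nat.strong_induction_on with
    | _ j ih =>
      intro hj
      rcases Nat.eq_zero_or_pos j with h0 | h0
      · subst h0
        exact SimpleGraph.Reachable.refl _
      · obtain ⟨h3, h4⟩ := hD.plt j h0 hj
        have h5 := (hA2 j h0 hj ⟨M - x (π j), by omega⟩ ⟨j, by omega⟩ rfl rfl).symm.reachable
        have h6 := (hA1 (π j) h3 ⟨M - x (π j), by omega⟩ ⟨c (π j), by omega⟩ rfl rfl).reachable
        exact h5.trans (h6.trans (ih (c (π j)) h4 (by omega)))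
  have hreach2 : ∀ i (hi : i < a), G.Reachable ⟨M - x i, by omega⟩ ⟨0, by omega⟩ := by
    intro i hi
    have h3 := hD.clt i hi
    exact ((hA1 i hi ⟨M - x i, by omega⟩ ⟨c i, by omega⟩ rfl rfl).reachable).trans
      (hreach1 (c i) h3)
  have hreach : ∀ (n : ℕ) (hn : n < M + 1), G.Reachable ⟨n, hn⟩ ⟨0, by omega⟩ := by
    intro n
    induction n using Nat.strong_induction_on with
    | _ n ih =>
      intro hn
      by_cases hnL : n ∈ L
      · rw [hL, mem_union, hL1, mem_image, mem_range] at hnL
        rcases hnL with ⟨i, hi, rfl⟩ | h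
        · rw [mem_range] at hi
          exact hreach2 i hi
        · exact hreach1 n h
      · have hnU : n ∈ U := by
          rw [hU, mem_sdiff, mem_range]
          exact ⟨hn, hnL⟩
        have h3 := hφ n hnU
        have h4 : G.Adj ⟨n, hn⟩ ⟨n - φ n, by omega⟩ := by
          rw [hadj]
          left
          right
          right
          refine ⟨hnU, ?_⟩
          show n - φ n + φ n = n
          omega
        exact h4.reachable.trans (ih (n - φ n) (by omega) (by omega))
  have hconn : G.Connected := by
    rw [SimpleGraph.connected_iff]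
    refine ⟨fun u v => ?_, ⟨⟨0, Nat.succ_pos _⟩⟩⟩
    exact (hreach u u.2).trans (hreach v v.2).symm
  -- the number of edges
  set vx : ℕ → Fin (M + 1) := fun n => if h : n < M + 1 then ⟨n, h⟩ else 0 with hvx
  have hvx' : ∀ u : Fin (M + 1), vx u = u := by
    intro u
    rw [hvx]
    simp only
    rw [dif_pos u.2]
  have hsub : G.edgeSet ⊆ (((range a).image (fun i => s(vx (M - x i), vx (c i))) ∪
      (Ico 1 b).image (fun j => s(vx (M - x (π j)), vx j)) ∪
      U.image (fun u => s(vx u, vx (u - φ u))) : Finset (Sym2 (Fin (M + 1)))) :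
        Set (Sym2 (Fin (M + 1)))) := by
    intro e he
    induction e using Sym2.ind with
    | _ u v =>
      rw [SimpleGraph.mem_edgeSet, hadj] at he
      rw [mem_coe, mem_union, mem_union, mem_image, mem_image, mem_image]
      have key : ∀ u v : Fin (M + 1), R u v →
          ((∃ i ∈ range a, s(vx (M - x i), vx (c i)) = s(u, v)) ∨
          (∃ j ∈ Ico 1 b, s(vx (M - x (π j)), vx j) = s(u, v))) ∨
          ∃ n ∈ U, s(vx n, vx (n - φ n)) = s(u, v) := by
        rintro u v (⟨i, h3, h4, h5⟩ | ⟨j, h3, h4, h5, h6⟩ | ⟨h3, h4⟩)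
        · left
          left
          refine ⟨i, mem_range.2 h3, ?_⟩
          rw [← h4, ← h5, hvx', hvx']
        · left
          right
          refine ⟨j, mem_Ico.2 ⟨h3, h4⟩, ?_⟩
          rw [← h5, ← h6, hvx', hvx']
        · right
          refine ⟨u, h3, ?_⟩
          rw [show (u : ℕ) - φ u = v by omega, hvx', hvx']
      rcases he with h | h
      · exact key u v h
      · have := key v u h
        rwa [Sym2.eq_swap] at this
  have hcard_le : G.edgeSet.ncard ≤ M := by
    refine (Set.ncard_le_ncard hsub (Finset.finite_toSet _)).trans ?_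
    rw [Set.ncard_coe_finset]
    refine (card_union_le _ _).trans ?_
    have h3 := card_image_le (s := range a) (f := fun i => s(vx (M - x i), vx (c i)))
    have h4 := card_image_le (s := Ico 1 b) (f := fun j => s(vx (M - x (π j)), vx j))
    have h5 := card_image_le (s := U) (f := fun u => s(vx u, vx (u - φ u)))
    have h6 := card_union_le ((range a).image (fun i => s(vx (M - x i), vx (c i))))
      ((Ico 1 b).image (fun j => s(vx (M - x (π j)), vx j)))
    rw [card_range] at h3
    rw [Nat.card_Ico] at h4
    rw [hUc] at h5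
    omega
  have hcard_ge : M + 1 ≤ G.edgeSet.ncard + 1 := by
    have h3 := hconn.card_vert_le_card_edgeSet_add_one
    rw [Nat.card_eq_fintype_card, Fintype.card_fin] at h3
    exact h3
  have hcard : G.edgeSet.ncard = M := by omega
  have htree : G.IsTree := by
    rw [SimpleGraph.isTree_iff_connected_and_card]
    refine ⟨hconn, ?_⟩
    rw [Nat.card_eq_fintype_card (α := Fin (M + 1)), Fintype.card_fin]
    show G.edgeSet.ncard + 1 = M + 1
    rw [hcard]
  refine ⟨G, htree, hcard, ?_, hA1, hA2⟩
  ext δ
  rw [Set.mem_ofPred_eq, Set.mem_Icc]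
  constructor
  · rintro ⟨u, v, huv, rfl⟩
    have h3 : (u : ℕ) ≠ v := fun h => huv.ne (Fin.ext h)
    have h4 := u.2
    have h5 := v.2
    omega
  · rintro ⟨h3, h4⟩
    by_cases hδ : δ ∈ D
    · rw [hDd, mem_union, hD1, hD2, mem_image, mem_image] at hδ
      rcases hδ with ⟨i, hi, rfl⟩ | ⟨j, hj, rfl⟩
      · rw [mem_range] at hi
        have h5 := hcM i hi
        refine ⟨⟨M - x i, by omega⟩, ⟨c i, by omega⟩, hA1 i hi _ _ rfl rfl, ?_⟩
        show M - (x i + c i) = Int.natAbs (((M - x i : ℕ) : ℤ) - ((c i : ℕ) : ℤ))
        omega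
      · rw [mem_Ico] at hj
        have h5 := hjM j hj.1 hj.2
        refine ⟨⟨M - x (π j), by omega⟩, ⟨j, by omega⟩, hA2 j hj.1 hj.2 _ _ rfl rfl, ?_⟩
        show M - (x (π j) + j) = Int.natAbs (((M - x (π j) : ℕ) : ℤ) - ((j : ℕ) : ℤ))
        omega
    · have hδC : δ ∈ C := by
        rw [hC, mem_sdiff, mem_Icc]
        exact ⟨⟨h3, h4⟩, hδ⟩
      obtain ⟨u, hu, hφu⟩ := p3 δ hδC
      have h5 := hφ u hu
      have h6 : u < M + 1 := by
        rw [hU, mem_sdiff, mem_range] at hu
        exact hu.1
      refine ⟨⟨u, h6⟩, ⟨u - φ u, by omega⟩, ?_, ?_⟩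
      · rw [hadj]
        left
        right
        right
        refine ⟨hu, ?_⟩
        show u - φ u + φ u = u
        omega
      · show δ = Int.natAbs (((u : ℕ) : ℤ) - ((u - φ u : ℕ) : ℤ))
        omega

end Pool.Agent.TH368.GT
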