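import Pool.Agent.TH368.GT.Num
import Pool.Agent.H115R2.Assemble

/-!
# Zigzag enumeration of a rooted tree, with jumps taken first in, first out

The root is an upper vertex. When an upper vertex is placed, all its children are placed, the last
one having a child if possible; then a child of this last one is placed, if there is one, otherwise
a vertex is placed (jump) whose parent has the smallest number.
-/

set_option autoImplicit false

namespace Pool.Agent.TH368.GT

open Finset Pool.Agent.H115R2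

/-- a finite set of vertices as a list of values with a prescribed last element -/
lemma exists_enum_set {V : Type} (S : Finset V) (P : V → Prop) (d : V) : ∃ (n : ℕ) (e : ℕ → V),
    (∀ k, k < n → e k ∈ S) ∧ (∀ k k', k < n → k' < n → e k = e k' → k = k') ∧
    (∀ v ∈ S, ∃ k, k < n ∧ e k = v) ∧ ((∃ w ∈ S, P w) → ∃ k, k + 1 = n ∧ P (e k)) := by
  classical
  have key : ∀ (l : List V), l.Nodup → (∀ v, v ∈ l ↔ v ∈ S) →
      (∀ k, k < l.length → l.getD k d ∈ S) ∧
      (∀ k k', k < l.length → k' < l.length → l.getD k d = l.getD k' d → k = k') ∧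
      (∀ v ∈ S, ∃ k, k < l.length ∧ l.getD k d = v) := by
    intro l hl hm
    have hget : ∀ k (hk : k < l.length), l.getD k d = l[k] := by
      intro k hk
      simp [hk]
    refine ⟨?_, ?_, ?_⟩
    · intro k hk
      rw [hget k hk, ← hm]
      exact List.getElem_mem hk
    · intro k k' hk hk' h
      rw [hget k hk, hget k' hk'] at h
      exact (hl.getElem_inj_iff).1 h
    · intro v hv
      rw [← hm] at hv
      obtain ⟨k, hk, h⟩ := List.getElem_of_mem hv
      exact ⟨k, hk, by rw [hget k hk, h]⟩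
  by_cases hw : ∃ w ∈ S, P w
  · obtain ⟨w, hwS, hwP⟩ := hw
    have hnd : ((S.erase w).toList ++ [w]).Nodup := by
      rw [List.nodup_append]
      refine ⟨Finset.nodup_toList _, List.nodup_singleton _, ?_⟩
      intro x hx y hy h
      rw [Finset.mem_toList, mem_erase] at hx
      rw [List.mem_singleton] at hy
      exact hx.1 (h.trans hy)
    have hmem : ∀ v, v ∈ ((S.erase w).toList ++ [w]) ↔ v ∈ S := by
      intro v
      rw [List.mem_append, Finset.mem_toList, mem_erase, List.mem_singleton]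
      constructor
      · rintro (h | h)
        · exact h.2
        · rw [h]; exact hwS
      · intro h
        by_cases hv : v = w
        · exact Or.inr hv
        · exact Or.inl ⟨hv, h⟩
    obtain ⟨h1, h2, h3⟩ := key _ hnd hmem
    refine ⟨_, fun k => ((S.erase w).toList ++ [w]).getD k d, h1, h2, h3, fun _ => ?_⟩
    refine ⟨(S.erase w).toList.length, by simp, ?_⟩
    have : ((S.erase w).toList ++ [w]).getD (S.erase w).toList.length d = w := by
      rw [List.getD_append_right _ _ _ _ le_rfl]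
      simp
    simp only [this]
    exact hwP
  · obtain ⟨h1, h2, h3⟩ := key S.toList (Finset.nodup_toList _) (fun v => Finset.mem_toList)
    exact ⟨_, fun k => S.toList.getD k d, h1, h2, h3, fun h => absurd h hw⟩

variable {V : Type} [Fintype V] {T : SimpleGraph V} {r : V} {par : V → V}

/-- the children of a vertex -/
lemma exists_children (r : V) (par : V → V) (β : V) : ∃ (n : ℕ) (e : ℕ → V),
    (∀ k, k < n → e k ≠ r ∧ par (e k) = β) ∧ (∀ k k', k < n → k' < n → e k = e k' → k = k') ∧
    (∀ v, v ≠ r → par v = β → ∃ k, k < n ∧ e k = v) ∧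
    (∀ w z, w ≠ r → z ≠ r → par w = β → par z = w →
      ∃ k z', k + 1 = n ∧ z' ≠ r ∧ par z' = e k) := by
  classical
  obtain ⟨n, e, h1, h2, h3, h4⟩ := exists_enum_set
    (univ.filter (fun v => v ≠ r ∧ par v = β)) (fun w => ∃ z, z ≠ r ∧ par z = w) r
  refine ⟨n, e, ?_, h2, ?_, ?_⟩
  · intro k hk
    have := h1 k hk
    rw [mem_filter] at this
    exact this.2
  · intro v hv hvb
    exact h3 v (by rw [mem_filter]; exact ⟨mem_univ _, hv, hvb⟩)
  · intro w z hw hz hwb hzw
    obtain ⟨k, hk, z', hz', hz''⟩ := h4 ⟨w, by rw [mem_filter]; exact ⟨mem_univ _, hw, hwb⟩,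
      z, hz, hzw⟩
    exact ⟨k, z', hk, hz', hz''⟩

/-- a partial enumeration -/
structure St (r : V) (par : V → V) (a b : ℕ) (f g : ℕ → V) (c π : ℕ → ℕ) (Sp : Finset ℕ) :
    Prop where
  dat : Dat a b c π Sp
  g0 : g 0 = r
  finj : ∀ i i', i < a → i' < a → f i = f i' → i = i'
  ginj : ∀ j j', j < b → j' < b → g j = g j' → j = j'
  fpar : ∀ i, i < a → f i ≠ r ∧ par (f i) = g (c i)
  gpar : ∀ j, 1 ≤ j → j < b → g j ≠ r ∧ par (g j) = f (π j)
  sp : ∀ j ∈ Sp, 1 ≤ j ∧ j < b
  full : ∀ v, v ≠ r → ∀ j, j < b → par v = g j → ∃ i, i < a ∧ f i = v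
  pend : ∀ v, v ≠ r → ∀ i, i < a → par v = f i → (∃ j, j < b ∧ g j = v) ∨ ∀ j ∈ Sp, π j ≤ i
  cnt : ∀ j ∈ Sp, ∀ w z, w ≠ r → z ≠ r → par w = g (j - 1) → par z = w → False
  last : ∀ w z, w ≠ r → z ≠ r → par w = g (b - 1) → par z = w →
    ∃ i v, i + 1 = a ∧ c i = b - 1 ∧ v ≠ r ∧ par v = f i ∧ ∀ j, j < b → g j ≠ v

lemma start (r : V) (par : V → V) : ∃ a f g c π, St r par a 1 f g c π ∅ := by
  classical
  obtain ⟨n, e, h1, h2, h3, h4⟩ := exists_children r par r
  refine ⟨n, e, fun _ => r, fun _ => 0, fun _ => 0, ?_⟩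
  refine ⟨⟨le_rfl, ?_, ?_, ?_, ?_, ?_⟩, rfl, h2, ?_, ?_, ?_, ?_, ?_, ?_, ?_, ?_⟩
  · intro i _; omega
  · intro i i' _ _; omega
  · intro j hj1 hj2; omega
  · intro j hj1 hj2; omega
  · intro j hj; simp at hj
  · intro j j' hj hj' _; omega
  · intro i hi; exact h1 i hi
  · intro j hj1 hj2; omega
  · intro j hj; simp at hj
  · intro v hv j _ hp
    exact h3 v hv hp
  · intro v _ i _ _
    right
    intro j hj
    simp at hj
  · intro j hj; simp at hj
  · intro w z hw hz hwp hzw
    obtain ⟨k, z', hk, hz', hz''⟩ := h4 w z hw hz hwp hzw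
    exact ⟨k, z', hk, rfl, hz', hz'', fun j _ h => hz' h.symm⟩

/-- placing a further upper vertex `β` and its children -/
lemma extend {a b : ℕ} {f g : ℕ → V} {c π : ℕ → ℕ} {Sp : Finset ℕ}
    (h : St r par a b f g c π Sp) (β : V) (hβ : β ≠ r) (p : ℕ) (hp : p < a)
    (hpar : par β = f p) (hun : ∀ j, j < b → g j ≠ β) (Sp' : Finset ℕ)
    (hSp : (Sp' = Sp ∧ p + 1 = a ∧ c p = b - 1) ∨
      (Sp' = insert b Sp ∧ (∀ j ∈ Sp, π j ≤ p) ∧
        (∀ v, v ≠ r → ∀ i, i < a → par v = f i → (∀ j, j < b → g j ≠ v) → p ≤ i) ∧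
        (∀ w z, w ≠ r → z ≠ r → par w = g (b - 1) → par z = w → False))) :
    ∃ a' f' g' c' π', St r par a' (b + 1) f' g' c' π' Sp' := by
  classical
  obtain ⟨n, e, h1, h2, h3, h4⟩ := exists_children r par β
  have hb : 1 ≤ b := h.dat.hb
  -- elements of `Sp'`
  have hSpsub : ∀ j ∈ Sp', j ∈ Sp ∨ j = b := by
    intro j hj
    rcases hSp with ⟨h5, -⟩ | ⟨h5, -⟩
    · rw [h5] at hj; exact Or.inl hj
    · rw [h5, mem_insert] at hj
      exact hj.symm
  have hSpsup : ∀ j ∈ Sp, j ∈ Sp' := by
    intro j hj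
    rcases hSp with ⟨h5, -⟩ | ⟨h5, -⟩
    · rw [h5]; exact hj
    · rw [h5, mem_insert]; exact Or.inr hj
  set f' : ℕ → V := fun i => if i < a then f i else e (i - a) with hf'
  set c' : ℕ → ℕ := fun i => if i < a then c i else b with hc'
  set g' : ℕ → V := Function.update g b β with hg'
  set π' : ℕ → ℕ := Function.update π b p with hπ'
  have hf1 : ∀ i, i < a → f' i = f i := fun i hi => if_pos hi
  have hf2 : ∀ i, a ≤ i → f' i = e (i - a) := fun i hi => if_neg (by omega)
  have hc1 : ∀ i, i < a → c' i = c i := fun i hi => if_pos hi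
  have hc2 : ∀ i, a ≤ i → c' i = b := fun i hi => if_neg (by omega)
  have hg1 : ∀ j, j ≠ b → g' j = g j := fun j hj => Function.update_of_ne hj _ _
  have hg2 : g' b = β := Function.update_self _ _ _
  have hπ1 : ∀ j, j ≠ b → π' j = π j := fun j hj => Function.update_of_ne hj _ _
  have hπ2 : π' b = p := Function.update_self _ _ _
  -- an old lower vertex is no child of `β`
  have hne : ∀ i k, i < a → k < n → f i ≠ e k := by
    intro i k hi hk hik
    have h5 := (h.fpar i hi).2
    rw [hik, (h1 k hk).2] at h5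
    exact hun (c i) (h.dat.clt i hi) h5.symm
  have hπa : ∀ j, 1 ≤ j → j < b → π j < a := fun j hj hjb => (h.dat.plt j hj hjb).1
  refine ⟨a + n, f', g', c', π', ?_⟩
  refine ⟨⟨by omega, ?_, ?_, ?_, ?_, ?_⟩, ?_, ?_, ?_, ?_, ?_, ?_, ?_, ?_, ?_, ?_⟩
  · -- clt
    intro i hi
    rcases Nat.lt_or_ge i a with h5 | h5
    · rw [hc1 i h5]
      have := h.dat.clt i h5
      omega
    · rw [hc2 i h5]
      omega
  · -- cmono
    intro i i' hii hi'
    rcases Nat.lt_or_ge i' a with h5 | h5
    · rw [hc1 i' h5, hc1 i (by omega)]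
      exact h.dat.cmono i i' hii h5
    · rw [hc2 i' h5]
      rcases Nat.lt_or_ge i a with h6 | h6
      · rw [hc1 i h6]
        exact (h.dat.clt i h6).le
      · rw [hc2 i h6]
  · -- plt
    intro j hj1 hjb
    rcases Nat.lt_succ_iff_lt_or_eq.mp hjb with h5 | h5
    · obtain ⟨h6, h7⟩ := h.dat.plt j hj1 h5
      rw [hπ1 j (by omega), hc1 _ h6]
      exact ⟨by omega, h7⟩
    · subst h5
      rw [hπ2, hc1 p hp]
      exact ⟨by omega, h.dat.clt p hp⟩
  · -- reg
    intro j hj1 hjb hj
    rcases Nat.lt_succ_iff_lt_or_eq.mp hjb with h5 | h5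
    · obtain ⟨h6, h7⟩ := h.dat.reg j hj1 h5 (fun h8 => hj (hSpsup j h8))
      have h8 := hπa j hj1 h5
      rw [hπ1 j (by omega), hc1 _ h8]
      refine ⟨h6, ?_⟩
      intro i hi hia
      rcases Nat.lt_or_ge i a with h9 | h9
      · rw [hc1 i h9]
        exact h7 i hi h9
      · rw [hc2 i h9]
        omega
    · subst h5
      rcases hSp with ⟨h5, h6, h7⟩ | ⟨h5, -⟩
      · rw [hπ2, hc1 p hp]
        refine ⟨by omega, ?_⟩
        intro i hi hia
        rw [hc2 i (by omega)]
      · rw [h5] at hj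
        exact absurd (mem_insert_self _ _) hj
  · -- fifo
    intro j hj j' hj' hjj
    rcases hSpsub j' hj' with h5 | h5
    · have h6 := h.sp j' h5
      rcases hSpsub j hj with h7 | h7
      · rw [hπ1 j (by omega), hπ1 j' (by omega)]
        exact h.dat.fifo j h7 j' h5 hjj
      · omega
    · subst h5
      rcases hSpsub j hj with h7 | h7
      · rw [hπ1 j (by omega), hπ2]
        rcases hSp with ⟨h5, -⟩ | ⟨-, h6, -⟩
        · rw [h5] at hj'
          have := h.sp _ hj'
          omega
        · exact h6 j h7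
      · omega
  · -- g0
    rw [hg1 0 (by omega)]
    exact h.g0
  · -- finj
    intro i i' hi hi' hii
    rcases Nat.lt_or_ge i a with h5 | h5 <;> rcases Nat.lt_or_ge i' a with h6 | h6
    · rw [hf1 i h5, hf1 i' h6] at hii
      exact h.finj i i' h5 h6 hii
    · rw [hf1 i h5, hf2 i' h6] at hii
      exact absurd hii (hne i (i' - a) h5 (by omega))
    · rw [hf2 i h5, hf1 i' h6] at hii
      exact absurd hii.symm (hne i' (i - a) h6 (by omega))
    · rw [hf2 i h5, hf2 i' h6] at hii
      have := h2 _ _ (by omega) (by omega) hii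
      omega
  · -- ginj
    intro j j' hj hj' hjj
    by_cases h5 : j = b <;> by_cases h6 : j' = b
    · omega
    · rw [h5, hg2, hg1 j' h6] at hjj
      exact absurd hjj.symm (hun j' (by omega))
    · rw [h6, hg2, hg1 j h5] at hjj
      exact absurd hjj (hun j (by omega))
    · rw [hg1 j h5, hg1 j' h6] at hjj
      exact h.ginj j j' (by omega) (by omega) hjj
  · -- fpar
    intro i hi
    rcases Nat.lt_or_ge i a with h5 | h5
    · have h6 := h.dat.clt i h5
      rw [hf1 i h5, hc1 i h5, hg1 _ (by omega)]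
      exact h.fpar i h5
    · rw [hf2 i h5, hc2 i h5, hg2]
      exact h1 _ (by omega)
  · -- gpar
    intro j hj1 hjb
    rcases Nat.lt_succ_iff_lt_or_eq.mp hjb with h5 | h5
    · rw [hg1 j (by omega), hπ1 j (by omega), hf1 _ (hπa j hj1 h5)]
      exact h.gpar j hj1 h5
    · subst h5
      rw [hg2, hπ2, hf1 p hp]
      exact ⟨hβ, hpar⟩
  · -- sp
    intro j hj
    rcases hSpsub j hj with h5 | h5
    · have := h.sp j h5
      omega
    · omega
  · -- full
    intro v hv j hj hjv
    by_cases h5 : j = b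
    · subst h5
      rw [hg2] at hjv
      obtain ⟨k, hk, hkv⟩ := h3 v hv hjv
      refine ⟨a + k, by omega, ?_⟩
      rw [hf2 _ (by omega), Nat.add_sub_cancel_left]
      exact hkv
    · rw [hg1 j h5] at hjv
      obtain ⟨i, hi, hiv⟩ := h.full v hv j (by omega) hjv
      exact ⟨i, by omega, by rw [hf1 i hi]; exact hiv⟩
  · -- pend
    intro v hv i hi hiv
    by_cases hpl : ∃ j, j < b + 1 ∧ g' j = v
    · exact Or.inl hpl
    right
    push Not at hpl
    have hvb : v ≠ β := by
      intro h5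
      exact hpl b (by omega) (by rw [hg2, h5])
    have hvg : ∀ j, j < b → g j ≠ v := by
      intro j hj h5
      exact hpl j (by omega) (by rw [hg1 j (by omega)]; exact h5)
    intro j hj
    rcases Nat.lt_or_ge i a with h5 | h5
    · rw [hf1 i h5] at hiv
      rcases hSpsub j hj with h6 | h6
      · have h7 := h.sp j h6
        rw [hπ1 j (by omega)]
        rcases h.pend v hv i h5 hiv with ⟨j', hj', h8⟩ | h8
        · exact absurd h8 (hvg j' hj')
        · exact h8 j h6
      · subst h6
        rw [hπ2]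
        rcases hSp with ⟨h6, -⟩ | ⟨-, -, h6, -⟩
        · rw [h6] at hj
          have := h.sp _ hj
          omega
        · exact h6 v hv i h5 hiv hvg
    · rcases hSpsub j hj with h6 | h6
      · have h7 := h.sp j h6
        have h8 := hπa j h7.1 h7.2
        rw [hπ1 j (by omega)]
        omega
      · subst h6
        rw [hπ2]
        omega
  · -- cnt
    intro j hj w z hw hz hwp hzw
    rcases hSpsub j hj with h5 | h5
    · have h6 := h.sp j h5
      rw [hg1 _ (by omega)] at hwp
      exact h.cnt j h5 w z hw hz hwp hzw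
    · subst h5
      rw [hg1 _ (by omega)] at hwp
      rcases hSp with ⟨h6, -⟩ | ⟨-, -, -, h6⟩
      · rw [h6] at hj
        have := h.sp _ hj
        omega
      · exact h6 w z hw hz hwp hzw
  · -- last
    intro w z hw hz hwp hzw
    rw [Nat.add_sub_cancel, hg2] at hwp
    obtain ⟨k, z', hk, hz', hz''⟩ := h4 w z hw hz hwp hzw
    refine ⟨a + k, z', by omega, ?_, hz', ?_, ?_⟩
    · rw [hc2 _ (by omega)]
      omega
    · rw [hf2 _ (by omega), Nat.add_sub_cancel_left]
      exact hz''
    · intro j hj hjz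
      have hek := h1 k (by omega)
      by_cases h5 : j = b
      · subst h5
        rw [hg2] at hjz
        rw [← hjz, hpar] at hz''
        exact hne p k hp (by omega) hz''
      · rw [hg1 j h5] at hjz
        rcases Nat.eq_zero_or_pos j with h6 | h6
        · subst h6
          rw [h.g0] at hjz
          exact hz' hjz.symm
        · have h7 := (h.gpar j h6 (by omega)).2
          rw [hjz, hz''] at h7
          exact hne (π j) k (hπa j h6 (by omega)) (by omega) h7.symm

/-- as long as there are vertices which are not placed, the enumeration can be continued -/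
lemma step (hr : Root T r par) {a b : ℕ} {f g : ℕ → V} {c π : ℕ → ℕ} {Sp : Finset ℕ}
    (h : St r par a b f g c π Sp) (hun : ∃ v, (∀ i, i < a → f i ≠ v) ∧ ∀ j, j < b → g j ≠ v) :
    ∃ a' f' g' c' π' Sp', St r par a' (b + 1) f' g' c' π' Sp' := by
  classical
  -- an unplaced vertex with a placed parent
  have hex : ∃ i, i < a ∧ ∃ v, v ≠ r ∧ par v = f i ∧ ∀ j, j < b → g j ≠ v := by
    obtain ⟨v, hv, hmin⟩ := Finset.exists_min_image
      (univ.filter (fun v => (∀ i, i < a → f i ≠ v) ∧ ∀ j, j < b → g j ≠ v)) (fun v => T.dist r v)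
      (by
        obtain ⟨v, hv⟩ := hun
        exact ⟨v, by rw [mem_filter]; exact ⟨mem_univ _, hv⟩⟩)
    rw [mem_filter] at hv
    obtain ⟨-, hv1, hv2⟩ := hv
    have hvr : v ≠ r := by
      intro h5
      exact hv2 0 h.dat.hb (by rw [h.g0, h5])
    have h5 : ¬ ((∀ i, i < a → f i ≠ par v) ∧ ∀ j, j < b → g j ≠ par v) := by
      intro h6
      have h7 := hmin (par v) (by rw [mem_filter]; exact ⟨mem_univ _, h6⟩)
      have h8 := hr.dist v hvr
      omega
    by_cases h6 : ∃ i, i < a ∧ f i = par v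
    · obtain ⟨i, hi, h7⟩ := h6
      exact ⟨i, hi, v, hvr, h7.symm, hv2⟩
    · push Not at h6
      have h7 : ∃ j, j < b ∧ g j = par v := by
        by_contra h8
        push Not at h8
        exact h5 ⟨h6, h8⟩
      obtain ⟨j, hj, h8⟩ := h7
      obtain ⟨i, hi, h9⟩ := h.full v hvr j hj h8.symm
      exact absurd h9 (hv1 i hi)
  by_cases hA : ∃ i v, i + 1 = a ∧ c i = b - 1 ∧ v ≠ r ∧ par v = f i ∧ ∀ j, j < b → g j ≠ v
  · obtain ⟨i, v, h5, h6, h7, h8, h9⟩ := hA
    obtain ⟨a', f', g', c', π', h10⟩ := extend h v h7 i (by omega) h8 h9 Sp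
      (Or.inl ⟨rfl, h5, h6⟩)
    exact ⟨a', f', g', c', π', _, h10⟩
  · obtain ⟨h5, v, h6, h7, h8⟩ := Nat.find_spec hex
    set i := Nat.find hex with hi
    have hmin : ∀ v, v ≠ r → ∀ i', i' < a → par v = f i' → (∀ j, j < b → g j ≠ v) → i ≤ i' := by
      intro v' hv' i' hi' hpv' hg'
      exact Nat.find_min' hex ⟨hi', v', hv', hpv', hg'⟩
    have hq1 : ∀ j ∈ Sp, π j ≤ i := by
      rcases h.pend v h6 i h5 h7 with ⟨j, hj, h11⟩ | h11
      · exact absurd h11 (h8 j hj)
      · exact h11
    have hq2 : ∀ w z, w ≠ r → z ≠ r → par w = g (b - 1) → par z = w → False := by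
      intro w z hw hz hwp hzw
      exact hA (h.last w z hw hz hwp hzw)
    obtain ⟨a', f', g', c', π', h10⟩ := extend h v h6 i h5 h7 h8 (insert b Sp)
      (Or.inr ⟨rfl, hq1, hmin, hq2⟩)
    exact ⟨a', f', g', c', π', _, h10⟩

/-- the complete enumeration -/
lemma all (hr : Root T r par) : ∃ a b f g c π Sp, St r par a b f g c π Sp ∧
    ∀ v, (∃ i, i < a ∧ f i = v) ∨ ∃ j, j < b ∧ g j = v := by
  classical
  by_contra hcon
  push Not at hcon
  have key : ∀ b, 1 ≤ b → ∃ a f g c π Sp, St r par a b f g c π Sp := by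
    intro b hb
    induction b, hb using Nat.le_induction with
    | base =>
      obtain ⟨a, f, g, c, π, h⟩ := start r par
      exact ⟨a, f, g, c, π, _, h⟩
    | succ b _ ih =>
      obtain ⟨a, f, g, c, π, Sp, h⟩ := ih
      obtain ⟨v, hv1, hv2⟩ := hcon a b f g c π Sp h
      exact step hr h ⟨v, hv1, hv2⟩
  obtain ⟨a, f, g, c, π, Sp, h⟩ := key (Fintype.card V + 1) (by omega)
  have h1 : (range (Fintype.card V + 1)).card ≤ (univ : Finset V).card := by
    apply card_le_card_of_injOn g (fun _ _ => mem_coe.2 (mem_univ _))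
    intro j hj j' hj' hjj
    rw [mem_coe, mem_range] at hj hj'
    exact h.ginj j j' hj hj' hjj
  rw [card_range, card_univ] at h1
  omega

end Pool.Agent.TH368.GT
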