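import Pool.Agent.TH368.GT.Comp
import Pool.Agent.TH368.GT.Enu

/-!
# A graceful tree containing a rooted tree
-/

set_option autoImplicit false

namespace Pool.Agent.TH368.GT

open Finset Pool.Agent.H115R2

/-- the vertices at even distance from `r` without grandchildren, if `r` is the root -/
def noGrand {V : Type} (T : SimpleGraph V) (r : V) : Set V :=
  {v | Even (T.dist r v) ∧ ∀ w z, T.Adj v w → T.Adj w z → T.dist r z ≠ T.dist r v + 2}

variable {V : Type} [Fintype V] {T : SimpleGraph V} {r : V} {par : V → V}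

omit [Fintype V] in
lemma par_of (hr : Root T r par) {v w z : V} (h1 : T.Adj v w) (h2 : T.Adj w z)
    (h3 : T.dist r z = T.dist r v + 2) : w ≠ r ∧ z ≠ r ∧ par w = v ∧ par z = w := by
  rcases hr.cov v w h1 with ⟨h4, h5⟩ | ⟨h4, h5⟩
  · have h6 := hr.dist v h4
    rw [h5] at h6
    rcases hr.cov w z h2 with ⟨h7, h8⟩ | ⟨h7, h8⟩
    · have h9 := hr.dist w h7
      rw [h8] at h9
      omega
    · have h9 := hr.dist z h7
      rw [h8] at h9
      omega
  · rcases hr.cov w z h2 with ⟨h7, h8⟩ | ⟨h7, h8⟩
    · have h9 : v = z := h5.symm.trans h8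
      rw [h9] at h3
      omega
    · exact ⟨h4, h7, h5, h8⟩

/-- **A tree `T` with root `r` is contained in a graceful tree with at most `m + 2 (n - 1)` edges**,
`n` the number of vertices at even distance from `r` without grandchildren. -/
theorem exists_super (hT : T.IsTree) (r : V) : ∃ (M : ℕ) (G : SimpleGraph (Fin (M + 1))),
    M ≤ T.edgeSet.ncard + 2 * ((noGrand T r).ncard - 1) ∧ G.IsTree ∧ G.edgeSet.ncard = M ∧
    {d : ℕ | ∃ u v : Fin (M + 1), G.Adj u v ∧ d = Int.natAbs (((u : ℕ) : ℤ) - ((v : ℕ) : ℤ))} =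
      Set.Icc 1 M ∧ T.IsContained G ∧ 1 ≤ (noGrand T r).ncard := by
  classical
  obtain ⟨par, hr⟩ := exists_root T hT r
  obtain ⟨a, b, f, g, c, π, Sp, hst, hall⟩ := all hr
  have hD := hst.dat
  have hb := hD.hb
  obtain ⟨x, hx1, hx2, hx3, hx4, hx5⟩ := exists_x hD
  -- distances
  have heven : ∀ j, j < b → Even (T.dist r (g j)) := by
    intro j
    induction j using Nat.strong_induction_on with
    | _ j ih =>
      intro hj
      rcases Nat.eq_zero_or_pos j with h0 | h0
      · subst h0
        rw [hst.g0, SimpleGraph.dist_self]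
        exact ⟨0, rfl⟩
      · obtain ⟨h1, h2⟩ := hD.plt j h0 hj
        obtain ⟨h3, h4⟩ := hst.gpar j h0 hj
        obtain ⟨h5, h6⟩ := hst.fpar (π j) h1
        have h7 := hr.dist (g j) h3
        have h8 := hr.dist (f (π j)) h5
        rw [h4] at h7
        rw [h6] at h8
        obtain ⟨k, hk⟩ := ih (c (π j)) h2 (by omega)
        exact ⟨k + 1, by omega⟩
  have hodd : ∀ i, i < a → ¬ Even (T.dist r (f i)) := by
    intro i hi
    obtain ⟨h5, h6⟩ := hst.fpar i hi
    have h8 := hr.dist (f i) h5
    rw [h6] at h8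
    obtain ⟨k, hk⟩ := heven (c i) (hD.clt i hi)
    rintro ⟨k', hk'⟩
    omega
  have hfg : ∀ i j, i < a → j < b → f i ≠ g j := by
    intro i j hi hj h
    apply hodd i hi
    rw [h]
    exact heven j hj
  -- the number of vertices
  have hcardV : Fintype.card V = a + b := by
    have h1 : (univ : Finset V) = (range a).image f ∪ (range b).image g := by
      ext v
      simp only [mem_univ, mem_union, mem_image, mem_range, true_iff]
      rcases hall v with ⟨i, hi, h⟩ | ⟨j, hj, h⟩
      · exact Or.inl ⟨i, hi, h⟩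
      · exact Or.inr ⟨j, hj, h⟩
    rw [← card_univ, h1, card_union_of_disjoint, card_image_of_injOn, card_image_of_injOn,
      card_range, card_range]
    · intro j hj j' hj' h
      rw [mem_coe, mem_range] at hj hj'
      exact hst.ginj j j' hj hj' h
    · intro j hj j' hj' h
      rw [mem_coe, mem_range] at hj hj'
      exact hst.finj j j' hj hj' h
    · rw [disjoint_left]
      intro v hv hv'
      rw [mem_image] at hv hv'
      obtain ⟨i, hi, h1⟩ := hv
      obtain ⟨j, hj, h2⟩ := hv'
      rw [mem_range] at hi hj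
      exact hfg i j hi hj (h1.trans h2.symm)
  have hm : a + b = T.edgeSet.ncard + 1 := by
    have h1 := hT.card_edgeFinset
    rw [Set.ncard_eq_toFinset_card', ← hcardV, ← h1]
    rfl
  -- the number of jumps
  have hng : ∀ j, (∀ w z, w ≠ r → z ≠ r → par w = g j → par z = w → False) → j < b →
      g j ∈ noGrand T r := by
    intro j h1 hj
    refine ⟨heven j hj, ?_⟩
    intro w z hw hz hd
    obtain ⟨h2, h3, h4, h5⟩ := par_of hr hw hz hd
    exact h1 w z h2 h3 h4 h5
  have hcnt : Sp.card + 1 ≤ (noGrand T r).ncard := by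
    have hbS : b ∉ Sp := by
      intro h
      have := hst.sp b h
      omega
    have h1 : (insert b Sp).card = Sp.card + 1 := card_insert_of_notMem hbS
    rw [← h1]
    have h2 : ((insert b Sp).image (fun j => g (j - 1))).card = (insert b Sp).card := by
      apply card_image_of_injOn
      intro j hj j' hj' h
      rw [mem_coe, mem_insert] at hj hj'
      have h3 : 1 ≤ j ∧ j ≤ b := by
        rcases hj with h4 | h4
        · omega
        · have := hst.sp j h4
          omega
      have h3' : 1 ≤ j' ∧ j' ≤ b := by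
        rcases hj' with h4 | h4
        · omega
        · have := hst.sp j' h4
          omega
      have := hst.ginj (j - 1) (j' - 1) (by omega) (by omega) h
      omega
    rw [← h2, ← Set.ncard_coe_finset]
    apply Set.ncard_le_ncard _ (Set.toFinite _)
    intro v hv
    rw [mem_coe, mem_image] at hv
    obtain ⟨j, hj, rfl⟩ := hv
    rw [mem_insert] at hj
    rcases hj with h4 | h4
    · subst h4
      refine hng (j - 1) ?_ (by omega)
      intro w z hw hz hwp hzw
      obtain ⟨i, v, h5, h6, h7, h8, h9⟩ := hst.last w z hw hz hwp hzw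
      rcases hall v with ⟨i', hi', h10⟩ | ⟨j', hj', h10⟩
      · have h11 := hr.dist v h7
        rw [h8] at h11
        have h12 := hodd i' hi'
        rw [h10, h11] at h12
        have h13 := hodd i (by omega)
        rw [Nat.even_add_one] at h12
        exact h12 h13
      · exact h9 j' hj' h10
    · have h5 := hst.sp j h4
      refine hng (j - 1) ?_ (by omega)
      exact hst.cnt j h4
  -- the number `M`
  obtain ⟨M, hM1, hM2, hM3⟩ : ∃ M, (∀ i, i < a → x i + b ≤ M) ∧ a + b ≤ M + 1 ∧
      M + 1 ≤ a + b + 2 * Sp.card := by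
    rcases Nat.eq_zero_or_pos a with h0 | h0
    · exact ⟨b - 1, fun i hi => by omega, by omega, by omega⟩
    · obtain ⟨k, hk⟩ : ∃ k, k + 1 = a := ⟨a - 1, by omega⟩
      have h1 := hx5 k hk
      have h2 : ∀ i, i < a → i ≤ x i := by
        intro i
        induction i with
        | zero => intro _; omega
        | succ i ih =>
          intro hi
          have h3 := ih (by omega)
          have h4 := hx1 i (i + 1) (by omega) hi
          omega
      refine ⟨x k + b, ?_, ?_, by omega⟩
      · intro i hi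
        rcases Nat.lt_or_ge i k with h3 | h3
        · have := hx1 i k h3 (by omega)
          omega
        · have : i = k := by omega
          rw [this]
      · have := h2 k (by omega)
        omega
  obtain ⟨G, t1, t2, t3, t4, t5⟩ := complete hD x hx1 hx2 hx3 hx4 M hM1 hM2
  refine ⟨M, G, by omega, t1, t2, t3, ?_, by omega⟩
  -- the embedding
  have hF : ∀ v, ∃ n, n < M + 1 ∧ ((∃ i, i < a ∧ f i = v ∧ n = M - x i) ∨
      (∃ j, j < b ∧ g j = v ∧ n = j)) := by
    intro v
    rcases hall v with ⟨i, hi, h⟩ | ⟨j, hj, h⟩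
    · exact ⟨M - x i, by omega, Or.inl ⟨i, hi, h, rfl⟩⟩
    · exact ⟨j, by omega, Or.inr ⟨j, hj, h, rfl⟩⟩
  choose F hF1 hF2 using hF
  have hFf : ∀ i, i < a → F (f i) = M - x i := by
    intro i hi
    rcases hF2 (f i) with ⟨i', hi', h1, h2⟩ | ⟨j, hj, h1, h2⟩
    · rw [h2, hst.finj i' i hi' hi h1]
    · exact absurd h1.symm (hfg i j hi hj)
  have hFg : ∀ j, j < b → F (g j) = j := by
    intro j hj
    rcases hF2 (g j) with ⟨i', hi', h1, h2⟩ | ⟨j', hj', h1, h2⟩
    · exact absurd h1 (hfg i' j hi' hj)
    · rw [h2, hst.ginj j' j hj' hj h1]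
  have hinj : ∀ u v, F u = F v → u = v := by
    intro u v h
    rcases hall u with ⟨i, hi, rfl⟩ | ⟨j, hj, rfl⟩ <;>
    rcases hall v with ⟨i', hi', rfl⟩ | ⟨j', hj', rfl⟩
    · rw [hFf i hi, hFf i' hi'] at h
      have h3 := hM1 i hi
      have h4 := hM1 i' hi'
      rcases lt_trichotomy i i' with h5 | h5 | h5
      · have := hx1 i i' h5 hi'
        omega
      · rw [h5]
      · have := hx1 i' i h5 hi
        omega
    · rw [hFf i hi, hFg j' hj'] at h
      have h3 := hM1 i hi
      omega
    · rw [hFf i' hi', hFg j hj] at h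
      have h3 := hM1 i' hi'
      omega
    · rw [hFg j hj, hFg j' hj'] at h
      rw [h]
  have hadj : ∀ u v, u ≠ r → par u = v → G.Adj ⟨F u, hF1 u⟩ ⟨F v, hF1 v⟩ := by
    intro u v hu huv
    rcases hall u with ⟨i, hi, rfl⟩ | ⟨j, hj, rfl⟩
    · have h1 := (hst.fpar i hi).2
      rw [huv] at h1
      subst h1
      exact t4 i hi _ _ (hFf i hi) (hFg _ (hD.clt i hi))
    · have h0 : 1 ≤ j := by
        rcases Nat.eq_zero_or_pos j with h0 | h0
        · subst h0
          exact absurd hst.g0 hu
        · exact h0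
      have h1 := (hst.gpar j h0 hj).2
      rw [huv] at h1
      subst h1
      exact (t5 j h0 hj ⟨F (f (π j)), hF1 _⟩ ⟨F (g j), hF1 _⟩
        (hFf _ (hD.plt j h0 hj).1) (hFg j hj)).symm
  refine ⟨⟨⟨fun v => ⟨F v, hF1 v⟩, ?_⟩, ?_⟩⟩
  · intro u v huv
    rcases hr.cov u v huv with ⟨h1, h2⟩ | ⟨h1, h2⟩
    · exact hadj u v h1 h2
    · exact (hadj v u h1 h2).symm
  · intro u v huv
    exact hinj u v (congrArg (fun y : Fin (M + 1) => (y : ℕ)) huv)

end Pool.Agent.TH368.GT
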