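import Mathlib

/-!
# One-sided greedy labels in zigzag order with jumps taken first in, first out

Lower vertices `0, …, a - 1`, upper vertices `0, …, b - 1`. The lower vertex `i` is joined to the
upper vertex `c i`, the upper vertex `j ≥ 1` is joined to the lower vertex `π j`. The upper vertices
which are not in `Sp` directly follow in the zigzag.
-/

set_option autoImplicit false

namespace Pool.Agent.TH368.GT

open Finset

/-- the combinatorial data -/
structure Dat (a b : ℕ) (c π : ℕ → ℕ) (Sp : Finset ℕ) : Prop where
  hb : 1 ≤ b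
  clt : ∀ i, i < a → c i < b
  cmono : ∀ i i', i ≤ i' → i' < a → c i ≤ c i'
  plt : ∀ j, 1 ≤ j → j < b → π j < a ∧ c (π j) < j
  reg : ∀ j, 1 ≤ j → j < b → j ∉ Sp → j = c (π j) + 1 ∧ ∀ i, π j < i → i < a → j ≤ c i
  fifo : ∀ j ∈ Sp, ∀ j' ∈ Sp, j < j' → π j ≤ π j'

variable {a b : ℕ} {c π : ℕ → ℕ} {Sp : Finset ℕ}

/-- The labels of the first `n` lower vertices have been chosen. -/
structure Lab (Sp : Finset ℕ) (c π : ℕ → ℕ) (n : ℕ) (x : ℕ → ℕ) : Prop where
  mono : ∀ i i', i < i' → i' < n → x i < x i'
  avoid : ∀ i, i < n → ∀ j ∈ Sp, π j < i → x i + c i ≠ x (π j) + j ∧ x i + c i + 1 ≠ x (π j) + j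
  bound : ∀ k, k + 1 = n → x k + 1 ≤ n + 2 * (Sp.filter (fun j => π j < k ∧
    x (π j) + j ≤ x k + c k)).card

/-- the least admissible number -/
lemma exists_least (W : Finset ℕ) (t0 d : ℕ) : ∃ t, t0 ≤ t ∧ t + d ∉ W ∧ t + d + 1 ∉ W ∧
    t - t0 ≤ 2 * (W.filter (fun s => t0 + d ≤ s ∧ s ≤ t + d)).card := by
  classical
  have hex : ∃ t, t0 ≤ t ∧ t + d ∉ W ∧ t + d + 1 ∉ W := by
    refine ⟨t0 + W.sup id + 1, by omega, ?_, ?_⟩
    · intro h
      have := Finset.le_sup (f := id) h
      simp only [id] at this
      omega
    · intro h
      have := Finset.le_sup (f := id) h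
      simp only [id] at this
      omega
  obtain ⟨h1, h2, h3⟩ := Nat.find_spec hex
  refine ⟨Nat.find hex, h1, h2, h3, ?_⟩
  set t := Nat.find hex with ht
  have hmin : ∀ s, t0 ≤ s → s < t → s + d ∈ W ∨ s + d + 1 ∈ W := by
    intro s hs hst
    have := Nat.find_min hex hst
    tauto
  set W' := W.filter (fun s => t0 + d ≤ s ∧ s ≤ t + d) with hW'
  have hsub : Ico t0 t ⊆ W'.image (fun s => s - d) ∪ W'.image (fun s => s - (d + 1)) := by
    intro s hs
    rw [mem_Ico] at hs
    rw [mem_union, mem_image, mem_image]
    rcases hmin s hs.1 hs.2 with h | h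
    · left
      exact ⟨s + d, by rw [hW', mem_filter]; exact ⟨h, by omega, by omega⟩, by omega⟩
    · right
      exact ⟨s + d + 1, by rw [hW', mem_filter]; exact ⟨h, by omega, by omega⟩, by omega⟩
  have h4 := (card_le_card hsub).trans (card_union_le _ _)
  have h5 := card_image_le (s := W') (f := fun s => s - d)
  have h6 := card_image_le (s := W') (f := fun s => s - (d + 1))
  rw [Nat.card_Ico] at h4
  omega

lemma exists_lab (hD : Dat a b c π Sp) : ∀ n, n ≤ a → ∃ x, Lab Sp c π n x := by
  classical
  intro n
  induction n with
  | zero =>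
    intro _
    exact ⟨fun _ => 0, ⟨by intro i i' _ h; omega, by intro i h; omega, by intro k h; omega⟩⟩
  | succ n ih =>
    intro hn
    obtain ⟨x, hx⟩ := ih (by omega)
    set t0 : ℕ := if n = 0 then 0 else x (n - 1) + 1 with ht0
    set W : Finset ℕ := (Sp.filter (fun j => π j < n)).image (fun j => x (π j) + j) with hW
    obtain ⟨t, h1, h2, h3, h4⟩ := exists_least W t0 (c n)
    refine ⟨Function.update x n t, ?_, ?_, ?_⟩
    · intro i i' hi hi'
      rcases Nat.lt_succ_iff_lt_or_eq.mp hi' with h | h
      · rw [Function.update_of_ne (by omega), Function.update_of_ne (by omega)]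
        exact hx.mono i i' hi h
      · rw [h, Function.update_self, Function.update_of_ne (by omega)]
        rw [h] at hi
        rw [ht0, if_neg (by omega)] at h1
        rcases Nat.lt_or_ge i (n - 1) with h5 | h5
        · have := hx.mono i (n - 1) h5 (by omega)
          omega
        · have h6 : i = n - 1 := by omega
          rw [h6]
          omega
    · intro i hi j hj hji
      rcases Nat.lt_succ_iff_lt_or_eq.mp hi with h | h
      · rw [Function.update_of_ne (by omega), Function.update_of_ne (by omega)]
        exact hx.avoid i h j hj hji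
      · rw [h, Function.update_self, Function.update_of_ne (by omega)]
        rw [h] at hji
        have hmem : x (π j) + j ∈ W := by
          rw [hW, mem_image]
          exact ⟨j, by rw [mem_filter]; exact ⟨hj, hji⟩, rfl⟩
        constructor
        · intro h5
          rw [← h5] at hmem
          exact h2 hmem
        · intro h5
          rw [← h5] at hmem
          exact h3 hmem
    · intro k hk
      have hkn : k = n := by omega
      subst hkn
      rw [Function.update_self]
      have hset : (Sp.filter (fun j => π j < k ∧ Function.update x k t (π j) + j ≤ t + c k)) =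
          (Sp.filter (fun j => π j < k ∧ x (π j) + j ≤ t + c k)) := by
        apply filter_congr
        intro j _
        constructor
        · rintro ⟨h5, h6⟩
          rw [Function.update_of_ne (by omega)] at h6
          exact ⟨h5, h6⟩
        · rintro ⟨h5, h6⟩
          rw [Function.update_of_ne (by omega)]
          exact ⟨h5, h6⟩
      rw [hset]
      set A := Sp.filter (fun j => π j < k ∧ t0 + c k ≤ x (π j) + j ∧ x (π j) + j ≤ t + c k) with hA
      have hWA : (W.filter (fun s => t0 + c k ≤ s ∧ s ≤ t + c k)).card ≤ A.card := by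
        have hsub : W.filter (fun s => t0 + c k ≤ s ∧ s ≤ t + c k) ⊆
            A.image (fun j => x (π j) + j) := by
          intro s hs
          rw [mem_filter, hW, mem_image] at hs
          obtain ⟨⟨j, hj, rfl⟩, h5, h6⟩ := hs
          rw [mem_filter] at hj
          rw [mem_image]
          exact ⟨j, by rw [hA, mem_filter]; exact ⟨hj.1, hj.2, h5, h6⟩, rfl⟩
        exact (card_le_card hsub).trans card_image_le
      rcases Nat.eq_zero_or_pos k with h0 | h0
      · subst h0
        have hA0 : A = ∅ := by
          rw [hA, filter_eq_empty_iff]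
          intro j _ h
          omega
        rw [hA0, card_empty] at hWA
        rw [if_pos rfl] at ht0
        omega
      · obtain ⟨k', rfl⟩ : ∃ k', k = k' + 1 := ⟨k - 1, by omega⟩
        rw [if_neg (by omega), Nat.add_sub_cancel] at ht0
        have h5 := hx.bound k' rfl
        set B := Sp.filter (fun j => π j < k' ∧ x (π j) + j ≤ x k' + c k') with hB
        have hck : c k' ≤ c (k' + 1) := hD.cmono k' (k' + 1) (by omega) (by omega)
        have h6 : A.card + B.card ≤
            (Sp.filter (fun j => π j < k' + 1 ∧ x (π j) + j ≤ t + c (k' + 1))).card := by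
          rw [← card_union_of_disjoint]
          · apply card_le_card
            intro j hj
            rw [mem_union, hA, hB, mem_filter, mem_filter] at hj
            rw [mem_filter]
            rcases hj with ⟨h7, h8, h9, h10⟩ | ⟨h7, h8, h9⟩
            · exact ⟨h7, h8, h10⟩
            · exact ⟨h7, by omega, by omega⟩
          · rw [disjoint_left]
            intro j hj hj'
            rw [hA, mem_filter] at hj
            rw [hB, mem_filter] at hj'
            omega
        omega

/-- **The labels.** -/
theorem exists_x (hD : Dat a b c π Sp) : ∃ x : ℕ → ℕ,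
    (∀ i i', i < i' → i' < a → x i < x i') ∧
    (∀ i i', i < i' → i' < a → x i + c i < x i' + c i') ∧
    (∀ i j, i < a → 1 ≤ j → j < b → x i + c i ≠ x (π j) + j) ∧
    (∀ j j', 1 ≤ j → j < j' → j' < b → x (π j) + j ≠ x (π j') + j') ∧
    (∀ k, k + 1 = a → x k + 1 ≤ a + 2 * Sp.card) := by
  classical
  obtain ⟨x, hx⟩ := exists_lab hD a le_rfl
  have hle : ∀ i i', i ≤ i' → i' < a → x i ≤ x i' := by
    intro i i' h h'
    rcases h.lt_or_eq with h1 | h1
    · exact (hx.mono i i' h1 h').le
    · rw [h1]
  have hcs : ∀ i i', i < i' → i' < a → x i + c i < x i' + c i' := by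
    intro i i' h h'
    have h1 := hx.mono i i' h h'
    have h2 := hD.cmono i i' h.le h'
    omega
  refine ⟨x, hx.mono, hcs, ?_, ?_, ?_⟩
  · intro i j hi hj1 hjb
    obtain ⟨hp1, hp2⟩ := hD.plt j hj1 hjb
    by_cases hj : j ∈ Sp
    · rcases Nat.lt_or_ge (π j) i with h | h
      · exact (hx.avoid i hi j hj h).1
      · have h1 := hle i (π j) h hp1
        have h2 := hD.cmono i (π j) h hp1
        omega
    · obtain ⟨h1, h2⟩ := hD.reg j hj1 hjb hj
      rcases Nat.lt_or_ge (π j) i with h | h
      · have h3 := h2 i h hi
        have h4 := hx.mono (π j) i h hi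
        omega
      · have h3 := hle i (π j) h hp1
        have h4 := hD.cmono i (π j) h hp1
        omega
  · intro j j' hj1 hjj hjb
    obtain ⟨hp1, hp2⟩ := hD.plt j hj1 (by omega)
    obtain ⟨hq1, hq2⟩ := hD.plt j' (by omega) hjb
    by_cases hj : j ∈ Sp
    · by_cases hj' : j' ∈ Sp
      · have h1 := hD.fifo j hj j' hj' hjj
        have h2 := hle (π j) (π j') h1 hq1
        omega
      · obtain ⟨h1, h2⟩ := hD.reg j' (by omega) hjb hj'
        rcases Nat.lt_or_ge (π j) (π j') with h | h
        · have h3 := (hx.avoid (π j') hq1 j hj h).2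
          omega
        · rcases h.lt_or_eq with h3 | h3
          · have h4 := h2 (π j) h3 hp1
            omega
          · rw [h3]
            omega
    · obtain ⟨h1, h2⟩ := hD.reg j hj1 (by omega) hj
      by_cases hj' : j' ∈ Sp
      · rcases Nat.lt_or_ge (π j') (π j) with h | h
        · have h3 := (hx.avoid (π j) hp1 j' hj' h).2
          omega
        · have h3 := hle (π j) (π j') h hq1
          omega
      · obtain ⟨h3, h4⟩ := hD.reg j' (by omega) hjb hj'
        rcases lt_trichotomy (π j) (π j') with h | h | h
        · have h5 := hx.mono (π j) (π j') h hq1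
          omega
        · rw [h] at h1
          omega
        · have h5 := h4 (π j) h hp1
          omega
  · intro k hk
    have h1 := hx.bound k hk
    have h2 := card_filter_le Sp (fun j => π j < k ∧ x (π j) + j ≤ x k + c k)
    omega

/-- at least as many sums as labels below every number -/
theorem dom (hD : Dat a b c π Sp) (x : ℕ → ℕ) (hx : ∀ i i', i < i' → i' < a → x i < x i')
    (s : ℕ) :
    ((range a).filter (fun i => x i < s)).card ≤
      ((range a).filter (fun i => x i + c i < s)).card +
      ((Ico 1 b).filter (fun j => x (π j) + j < s)).card := by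
  classical
  set P := (range a).filter (fun i => x i < s) with hP
  set E := (range a).filter (fun i => x i + c i < s) with hE
  set K := (Ico 1 b).filter (fun j => x (π j) + j < s) with hK
  have hle : ∀ i i', i ≤ i' → i' < a → x i ≤ x i' := by
    intro i i' h h'
    rcases h.lt_or_eq with h1 | h1
    · exact (hx i i' h1 h').le
    · rw [h1]
  have hadd : ∀ k i, i + k < a → x i + k ≤ x (i + k) := by
    intro k
    induction k with
    | zero => intro i _; simp
    | succ k ih =>
      intro i hi
      have h1 := ih i (by omega)
      have h2 := hx (i + k) (i + (k + 1)) (by omega) hi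
      omega
  -- the first vertex not in `E`
  by_cases hall : ∀ i, i < a → x i + c i < s
  · have h1 : P ⊆ E := by
      intro i hi
      rw [hP, mem_filter, mem_range] at hi
      rw [hE, mem_filter, mem_range]
      exact ⟨hi.1, hall i hi.1⟩
    have := card_le_card h1
    omega
  push Not at hall
  obtain ⟨h1, h2⟩ := Nat.find_spec hall
  set q := Nat.find hall with hq
  have hmin : ∀ i, i < q → x i + c i < s := by
    intro i hi
    have := Nat.find_min hall hi
    push Not at this
    exact this (by omega)
  have hEq : q ≤ E.card := by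
    have : range q ⊆ E := by
      intro i hi
      rw [mem_range] at hi
      rw [hE, mem_filter, mem_range]
      exact ⟨by omega, hmin i hi⟩
    have h3 := card_le_card this
    rwa [card_range] at h3
  -- the last vertex of `P`
  by_cases hPq : P.card ≤ q
  · omega
  push Not at hPq
  obtain ⟨p, hp⟩ : ∃ p, P.card = p + 1 := ⟨P.card - 1, by omega⟩
  have hpP : p < a ∧ x p < s := by
    by_contra hcon
    have h3 : P ⊆ range p := by
      intro i hi
      rw [hP, mem_filter, mem_range] at hi
      rw [mem_range]
      by_contra h4
      push Not at h4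
      apply hcon
      have := hle p i h4 hi.1
      exact ⟨by omega, by omega⟩
    have h4 := card_le_card h3
    rw [card_range] at h4
    omega
  have hsub : Icc 1 (p + 1 - q) ⊆ K := by
    intro j hj
    rw [mem_Icc] at hj
    obtain ⟨d, hd⟩ : ∃ d, p = q + d := ⟨p - q, by omega⟩
    have h3 := hadd d q (by omega)
    rw [← hd] at h3
    have h4 : j ≤ c q := by omega
    have h5 := hD.clt q h1
    obtain ⟨h6, h7⟩ := hD.plt j hj.1 (by omega)
    have h8 : π j < q := by
      by_contra h9
      push Not at h9
      have := hD.cmono q (π j) h9 h6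
      omega
    obtain ⟨q', hq'⟩ : ∃ q', q = q' + 1 := ⟨q - 1, by omega⟩
    have h9 := hle (π j) q' (by omega) (by omega)
    have h10 := hadd j q' (by omega)
    have h11 := hle (q' + j) p (by omega) hpP.1
    rw [hK, mem_filter, mem_Ico]
    exact ⟨⟨hj.1, by omega⟩, by omega⟩
  have h3 := card_le_card hsub
  rw [Nat.card_Icc] at h3
  omega

end Pool.Agent.TH368.GT
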